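import Mathlib
import Pool.Agent.H16.LP.All2

/-!
# Elliptic curves whose invariant is an algebraic number of degree `d`: no torsion over `ℚ(j)` and
the bound of Lang and Silverman with the constant `1 / 100`

The constant in the lower bound is absolute: it does not depend on the degree `d`.

Let `0 ≤ η < 1 / 2`.  We show that for all but at most `C H ^ (d + 1 - η / 2 + ε)` of the primitive
polynomials `F = a_d x ^ d + ... + a_0` with integral coefficients of absolute value at most `H` the
following holds for all roots `j ≠ 0, 1728` of `F` which generate a number field `K = ℚ(j)` of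
degree `d`, and for all elliptic curves `E` over `K` of invariant `j` (that is for all twists).
There are no torsion points over `K` except for `0`, and the canonical height of each point `P ≠ 0` of
each power `E ^ g` over `K`, for the polarizations given by positive definite integral matrices, is
at least `(1 - 2 η) / 100` times `1 + h(j) + (1 / d) ∑ log N v`, the sum over the primes of bad
reduction of `E`.

There are about `(2 H) ^ (d + 1) / ζ(d + 1)` primitive polynomials, and almost all of them are
irreducible.  So the theorem holds for almost all algebraic numbers of each degree `d`, ordered by the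
maximum of the coefficients of their minimal polynomials.

`SPt a b` is the group of the rational points over `K` of the elliptic curve
`E : y² = x³ + a x + b`, `sht P` the height of the `x`-coordinate of `P` (relative to `K`), `chat P`
the canonical height, the limit of `sht (2 ^ k P) / 4 ^ k`, and `chatM M P` the canonical height of
the point `P` of `E ^ g` for the polarization given by the symmetric positive definite matrix `M`.
The absolute heights are the quotients by the degree of `K`.

Proof.  Each prime which divides `a_d` lies below a pole of `j`, and `d h(j) ≤ log ((d + 1) H)`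
(`LP/ARC`, `LP/FIN`).  The contribution of the poles to the height, with multiplicities, is at
most `d h(j)`; so if the product of the primes `> 3` which divide `a_d` is not much smaller than `H`,
almost all of the height of `j` comes from simple poles (`LP/Asm2`).  An invariant of a curve with a
point of order two is the value of a rational function of degree three all of whose poles are
double except for one; so it has too few simple poles (`LP/TWO`).  Now the theorem on one invariant
of the library (`AllFieldsAllTwists`) applies.
-/

set_option autoImplicit false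
set_option linter.unusedSectionVars false

namespace Pool.Agent.Results.MP_9a3c31_nt.AlmostAllOfDegree

open NumberField IsDedekindDomain Pool.Agent.TH942 Pool.Agent.TH910.LS

section Defs

variable {K : Type} [Field K] [NumberField K]

/-- the `j`-invariant of `y² = x³ + a x + b` -/
noncomputable def jInv (a b : K) : K := 6912 * a ^ 3 / (4 * a ^ 3 + 27 * b ^ 2)

/-- The `v`-adic absolute value of the discriminant is not a twelfth power of an absolute value, or
`j` has a pole at `v`. All primes `v` of bad reduction of `y² = x³ + a x + b` which do not divide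
`6` have this property. -/
def Bad (a b : K) (v : HeightOneSpectrum (𝓞 K)) : Prop :=
  (∀ u : K, FinitePlace.mk v (4 * a ^ 3 + 27 * b ^ 2) ≠ FinitePlace.mk v u ^ 12) ∨
    1 < FinitePlace.mk v (jInv a b)

open Classical in
/-- The elliptic curves over `K` of invariant `j` have no torsion points over `K` except for `0`, and
the lower bound of Lang and Silverman with constant `c` holds for all powers of them and all points
`P ≠ 0` over `K`, for the polarizations given by positive definite matrices. -/
def LangSilverman (c : ℝ) (j : K) : Prop :=
  ∀ a b : K, 4 * a ^ 3 + 27 * b ^ 2 ≠ 0 → jInv a b = j →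
    (∀ Q : SPt a b, IsOfFinAddOrder Q → Q = 0) ∧
    ∀ S : Finset (HeightOneSpectrum (𝓞 K)), (∀ v ∈ S, Bad a b v) →
    ∀ (g : ℕ) (M : Matrix (Fin g) (Fin g) ℤ), (M.map (Int.cast : ℤ → ℝ)).PosDef →
    ∀ P : Fin g → SPt a b, P ≠ 0 →
      c * (1 + Height.logHeight₁ j / Module.finrank ℚ K +
        (∑ v ∈ S, Real.log (Ideal.absNorm v.asIdeal)) / Module.finrank ℚ K) ≤
        chatM M P / Module.finrank ℚ K

end Defs

/-- `j` generates the number field `K`, which has degree `d`, and is a root of the polynomial
`a_d x ^ d + ... + a_0`. -/
def GeneratingRoot {d : ℕ} (a : Fin (d + 1) → ℤ) (K : Type) [Field K] [NumberField K] (j : K) :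
    Prop :=
  Module.finrank ℚ K = d ∧ IntermediateField.adjoin ℚ {j} = ⊤ ∧
    ∑ i, (a i : K) * j ^ (i : ℕ) = 0

/-- The primitive polynomials with coefficients of absolute value at most `H` which have a
generating root `j ≠ 0, 1728` for which the conclusion with the constant `c` fails. -/
def Exceptional (d : ℕ) (c : ℝ) (H : ℕ) : Set (Fin (d + 1) → ℤ) :=
  {a | (∀ i, |a i| ≤ H) ∧ (∀ p : ℕ, p.Prime → ∃ i, ¬ (p : ℤ) ∣ a i) ∧
    ∃ (K : Type) (_ : Field K) (_ : NumberField K) (j : K),
      GeneratingRoot a K j ∧ j ≠ 0 ∧ j ≠ 1728 ∧ ¬ LangSilverman c j}

open Pool.Agent.Y733.UD Pool.Agent.Y733.LS Pool.Agent.W223.AK Pool.Agent.H691R3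
open Pool.Agent.Q237.LS

section Aux

variable {K : Type} [Field K] [NumberField K]

open Classical in
theorem ls_of {c : ℝ} (hc : 0 < c) {j : K} (h : LSP c j) : LangSilverman c j := by
  have hn := Pool.Agent.Q237.LS.n_pos (K := K)
  have key : ∀ x y z : ℝ, c * (1 + x / Module.finrank ℚ K + y / Module.finrank ℚ K) ≤
      z / Module.finrank ℚ K ↔ c * (Module.finrank ℚ K + x + y) ≤ z := by
    intro x y z
    have e : c * (1 + x / Module.finrank ℚ K + y / Module.finrank ℚ K) =
        c * (Module.finrank ℚ K + x + y) / Module.finrank ℚ K := by
      field_simp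
    rw [e, div_le_div_iff_of_pos_right hn]
  intro a b hD hj
  refine ⟨?_, ?_⟩
  · intro Q hQ
    by_contra hne
    set P' : Fin 1 → SPt a b := fun _ => Q with hP'
    have h1 := h a b hD hj ∅ (by simp) 1 1 (by
      have : (Matrix.map (1 : Matrix (Fin 1) (Fin 1) ℤ) (Int.cast : ℤ → ℝ)) = 1 := by
        ext i j
        fin_cases i
        fin_cases j
        simp
      rw [this]
      exact Matrix.PosDef.one) P' (by
        intro h0
        exact hne (congrFun h0 0))
    have h2 : chatM (1 : Matrix (Fin 1) (Fin 1) ℤ) P' = 0 := by
      unfold chatM
      simp only [Finset.univ_unique, Fin.default_eq_zero, Finset.sum_singleton, hP']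
      have h3 : chat Q = 0 := tors_zero (a := a) (b := b) hD hQ
      have h4 : chat (Q + Q) = 0 := tors_zero (a := a) (b := b) hD (hQ.add hQ)
      rw [h3, h4]
      simp
    rw [h2, Finset.sum_empty, add_zero] at h1
    have h5 : 0 ≤ ht j := ht_nonneg j
    have h6 : 0 < c * (Module.finrank ℚ K + ht j) := by positivity
    linarith
  · intro S hS g M hM P hP
    rw [key, ht_log]
    exact h a b hD hj S hS g M hM P hP

end Aux

/-- For all but at most `C H ^ (d + 1 - η / 2 + ε)` of the primitive polynomials of degree `d` with
integral coefficients of absolute value at most `H` the following holds for all roots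
`j ≠ 0, 1728` of degree `d`: the elliptic curves over `ℚ(j)` of invariant `j` have no torsion over
`ℚ(j)` and satisfy the bound of Lang and Silverman over `ℚ(j)` with the constant
`(1 - 2 η) / 100`. -/
theorem result (d : ℕ) (η ε : ℝ) (hη0 : 0 ≤ η) (hη : η < 1 / 2) (hε : 0 < ε) :
    ∃ C : ℝ, 0 < C ∧ ∀ H : ℕ, 1 ≤ H → (Exceptional d ((1 - 2 * η) / 100) H).Finite ∧
      ((Exceptional d ((1 - 2 * η) / 100) H).ncard : ℝ) ≤ C * (H : ℝ) ^ (d + 1 - η / 2 + ε) := by
  refine Pool.Agent.H16.LP.few_exc2 d η ε hη0 hη hε
    (fun H => Exceptional d ((1 - 2 * η) / 100) H) ?_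
  rintro H a ⟨h1, h2, K, i1, i2, j, ⟨h4, h5, h6⟩, h7, h8, h9⟩
  exact ⟨h1, h2, K, i1, i2, j, ⟨h4, h5, h6⟩, h7, h8, fun h => h9 (ls_of (by linarith) h)⟩

end Pool.Agent.Results.MP_9a3c31_nt.AlmostAllOfDegree
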