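import Mathlib
import Pool.Agent.H16.LA.MTot

/-!
# Lang and Silverman's lower bound over infinite extensions with bounded ramification

All constants are independent of the number field `K`, of its degree, and of the extension `L`.

`SPt a b` is the group of the rational points over `L` of the elliptic curve
`E : y² = x³ + a x + b`, `sht P` the height of the `x`-coordinate of `P` (relative to `L`), `chat P`
the canonical height, the limit of `sht (2 ^ k P) / 4 ^ k`, and `chatM M P` the canonical height of
the point `P` of `E ^ g` for the polarization given by the symmetric positive definite matrix `M`.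
The absolute heights are the quotients by the degree of `L`.

`BoundedRam m S L` says that all ramification indices of `L / K` at the primes which neither divide
`m` nor lie above the finite set `S` of primes of `K` divide `m`. There is no condition on the
degree, on the ramification above `S` and above `m`, or on the discriminant of `L`. Examples:
* all finite subextensions of Galois extensions of `K` whose Galois group has exponent dividing `m`,
  such as all multiquadratic extensions (`m = 2`);
* all `L` generated over `K` by elements of degree at most `d`, i.e. the finite subextensions of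
  `K^(d)`, with `m = d!`;
* for `m = 1`, all finite extensions of `K` unramified outside `S`.

For `j ∈ K`, `poleCount m j` is the sum of `log N v` over the primes `v ∤ m` at which `j` has a pole,
and `addCount m j` that over the primes `v ∤ 6 m`, not poles of `j`, at which `3 ∤ v(j)` and `3 ∤ m`,
or `2 ∤ v(j - 1728)` and `2 ∤ m`.

(1) ONE INVARIANT. Let `j ∈ K` with `poleCount m j + addCount m j ≥ (θ + κ) h(j)`, of absolute
height at least `C m² / θ²`. Then for all finite sets `S` of primes of `K` with
`∑ log N v ≤ κ h(j)`, for ALL finite extensions `L` with `BoundedRam m S L`, and ALL elliptic curves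
`E` over `L` of invariant `j`, the torsion points of `E(L)` have order at most `28 m² / θ²`, and all
points of infinite order over `L` of all powers `E ^ g`, with all polarizations, have absolute
canonical height at least `(θ / m)⁶ / 290000` times `1 + h(j) + (1 / [L : ℚ]) ∑ log N w`, the last
sum over the primes of `L` of bad reduction.

(2) FEW EXCEPTIONS. The invariants in `K` of height at most `B` for which one of these conclusions
fails, for some `S`, some `L` and some `E`, are at most `(C * B ^ (e + θ + κ + ε)) ^ n`, with `n` the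
degree of `K`, `C` independent of `K`, and `e = 1 / 3` if `3 ∤ m`, `e = 1 / 2` if `3 ∣ m`, `2 ∤ m`,
and `e = 1` if `6 ∣ m`. (3) There are at least `(C⁻¹ * B ^ (2 - ε) * δ_K ^ (- (2 + ε))) ^ n`
invariants in all if `B ≥ 16 √δ_K`. So, if `e + θ + κ < 2`, for almost all invariants one and the
same lower bound holds over the whole infinite extension `K^(d)` (`m = d!`), or over the maximal
extension of `K` unramified outside `S`, even for all `S` with `∑ log N v ≤ κ h(j)`.

Proof: by the theorem for a single curve over a field of any degree (starting library) it suffices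
to bound the counting functions in `L` from below, which is done by the fundamental identity
`∑ e f = [L : K]`. In a group of exponent `m`, the inertia group at a prime not dividing `m` acts
faithfully on the cotangent space, so it is cyclic, of order dividing `m`. A field generated by
elements of degree at most `d` lies in a Galois extension of exponent dividing `d!`. The exceptional
invariants are counted by the ideals of their poles and of the zeros of `j` or `j - 1728`.
-/

set_option autoImplicit false
set_option linter.unusedSectionVars false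

namespace Pool.Agent.Results.MP_9a3c31_nt.BoundedRamification

open NumberField IsDedekindDomain Pool.Agent.TH942 Pool.Agent.TH910.LS

section Defs

variable {K : Type} [Field K] [NumberField K]

/-- the `j`-invariant of `y² = x³ + a x + b` -/
noncomputable def jInv (a b : K) : K := 6912 * a ^ 3 / (4 * a ^ 3 + 27 * b ^ 2)

/-- The `v`-adic absolute value of the discriminant is not a twelfth power of an absolute value, or
`j` has a pole at `v`. All primes `v` of bad reduction of `y² = x³ + a x + b` which do not divide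
`6` have this property. -/
def Bad (a b : K) (v : HeightOneSpectrum (𝓞 K)) : Prop :=
  (∀ u : K, FinitePlace.mk v (4 * a ^ 3 + 27 * b ^ 2) ≠ FinitePlace.mk v u ^ 12) ∨
    1 < FinitePlace.mk v (jInv a b)

open Classical in
/-- the sum of `log N v` over the finite poles `v` of `j` which do not divide `m` -/
noncomputable def poleCount (m : ℕ) (j : K) : ℝ :=
  ∑ᶠ v : HeightOneSpectrum (𝓞 K),
    if FinitePlace.mk v (m : K) = 1 ∧ 1 < FinitePlace.mk v j then
      Real.log (Ideal.absNorm v.asIdeal) else 0

/-- `v` does not divide `6 m`, `j` has no pole at `v`, and `v(j)` and `m` are not divisible by `3` or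
`v(j - 1728)` and `m` are not divisible by `2` -/
def Additive (m : ℕ) (j : K) (v : HeightOneSpectrum (𝓞 K)) : Prop :=
  FinitePlace.mk v (2 : K) = 1 ∧ FinitePlace.mk v (3 : K) = 1 ∧ FinitePlace.mk v (m : K) = 1 ∧
    FinitePlace.mk v j ≤ 1 ∧
    ((¬ 3 ∣ m ∧ ∀ k : ℤ, FinitePlace.mk v j ≠ (Ideal.absNorm v.asIdeal : ℝ) ^ (3 * k)) ∨
      (¬ 2 ∣ m ∧ ∀ k : ℤ, FinitePlace.mk v (j - 1728) ≠ (Ideal.absNorm v.asIdeal : ℝ) ^ (2 * k)))

open Classical in
/-- the sum of `log N v` over the places `v` with `Additive m j v` -/
noncomputable def addCount (m : ℕ) (j : K) : ℝ :=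
  ∑ᶠ v : HeightOneSpectrum (𝓞 K),
    if Additive m j v then Real.log (Ideal.absNorm v.asIdeal) else 0

/-- the absolute logarithmic height -/
noncomputable def absH (j : K) : ℝ := Height.logHeight₁ j / Module.finrank ℚ K

open Classical in
/-- For all elliptic curves over `K` of invariant `j`: the orders of the torsion points over `K` are
at most `B`, and the lower bound of Lang and Silverman with constant `c` holds for all points of
infinite order over `K` of all powers, with all polarizations. -/
def LangSilverman (c B : ℝ) (j : K) : Prop :=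
  ∀ a b : K, 4 * a ^ 3 + 27 * b ^ 2 ≠ 0 → jInv a b = j →
    (∀ Q : SPt a b, IsOfFinAddOrder Q → (addOrderOf Q : ℝ) ≤ B) ∧
    ∀ S : Finset (HeightOneSpectrum (𝓞 K)), (∀ v ∈ S, Bad a b v) →
      ∀ (g : ℕ) (M : Matrix (Fin g) (Fin g) ℤ), (M.map (Int.cast : ℤ → ℝ)).PosDef →
      ∀ P : Fin g → SPt a b, ¬ IsOfFinAddOrder P →
        c * (1 + absH j + (∑ v ∈ S, Real.log (Ideal.absNorm v.asIdeal)) / Module.finrank ℚ K) ≤
          chatM M P / Module.finrank ℚ K

/-- All ramification indices of `L / K` at the primes which neither divide `m` nor lie above `S`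
divide `m`. -/
def BoundedRam (m : ℕ) (S : Finset (HeightOneSpectrum (𝓞 K)))
    (L : Type) [Field L] [NumberField L] [Algebra K L] : Prop :=
  ∀ w : HeightOneSpectrum (𝓞 L), FinitePlace.mk w (m : L) = 1 → w.under (𝓞 K) ∉ S →
    w.asIdeal.ramificationIdx (𝓞 K) ∣ m

/-- The bounds hold, with the constants `c` and `B`, over all finite extensions `L` of `K` with
`BoundedRam m S L`, for all finite sets `S` of primes of `K` with `∑ log N v ≤ κ h(j)`. -/
def InExtensions (m : ℕ) (κ c B : ℝ) (j : K) : Prop :=
  ∀ S : Finset (HeightOneSpectrum (𝓞 K)),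
    ∑ v ∈ S, Real.log (Ideal.absNorm v.asIdeal) ≤ κ * Height.logHeight₁ j →
    ∀ (L : Type) [Field L] [NumberField L] [Algebra K L],
      BoundedRam m S L → LangSilverman c B (algebraMap K L j)

variable (K)

/-- the root discriminant `δ_K` -/
noncomputable def rootDisc : ℝ :=
  |(NumberField.discr K : ℝ)| ^ (1 / (Module.finrank ℚ K : ℝ))

/-- the invariants of absolute height at most `B` -/
def Inv (B : ℝ) : Set K :=
  {j | j ≠ 0 ∧ j ≠ 1728 ∧ Height.logHeight₁ j ≤ Module.finrank ℚ K * Real.log B}

/-- the invariants of height at most `B` for which the bounds with the constants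
`(θ / m)⁶ / 290000` and `28 m² / θ²` fail in some extension -/
def Exc (m : ℕ) (θ κ B : ℝ) : Set K :=
  {j ∈ Inv K B | ¬ InExtensions m κ ((θ / m) ^ 6 / 290000) (28 * m ^ 2 / θ ^ 2) j}

/-- `L` is contained in a finite Galois extension `N` of `K` whose Galois group has exponent
dividing `m`. -/
def BoundedExponent (m : ℕ) (L : Type) [Field L] [NumberField L] [Algebra K L] : Prop :=
  ∃ (N : Type) (_ : Field N) (_ : NumberField N) (_ : Algebra K N) (_ : Algebra L N),
    IsScalarTower K L N ∧ IsGalois K N ∧ ∀ σ : N ≃ₐ[K] N, σ ^ m = 1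

/-- `L` is generated over `K` by elements of degree at most `d`. -/
def GeneratedByDegree (d : ℕ) (L : Type) [Field L] [NumberField L] [Algebra K L] : Prop :=
  ∃ S : Set L, (∀ x ∈ S, (minpoly K x).natDegree ≤ d) ∧ IntermediateField.adjoin K S = ⊤

end Defs

/-- the exponent of the exceptional invariants -/
noncomputable def expo (m : ℕ) : ℝ := if 3 ∣ m then (if 2 ∣ m then 1 else 1 / 2) else 1 / 3

open Pool.Agent.Y733.UD Pool.Agent.Y733.LS Pool.Agent.W223.AK Pool.Agent.H691R3
open Pool.Agent.Q237.LS Pool.Agent.Q237.LT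

section Aux

variable {K : Type} [Field K] [NumberField K]

open Classical in
theorem poleCount_eq (m : ℕ) (j : K) :
    poleCount m j = ∑ v ∈ Pool.Agent.H16.LA.am m j, Real.log (Nv v) := by
  rw [← fsum_ite (Pool.Agent.H16.LA.am m j) (fun v => Real.log (Nv v))]
  unfold poleCount
  refine finsum_congr fun v => ?_
  by_cases h : v ∈ Pool.Agent.H16.LA.am m j
  · have hp := Pool.Agent.H16.LA.mem_am.1 h
    have hp' : FinitePlace.mk v (m : K) = 1 ∧ 1 < FinitePlace.mk v j := ⟨hp.2, hp.1⟩
    rw [if_pos h, if_pos hp']
    rfl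
  · have hp : ¬ (FinitePlace.mk v (m : K) = 1 ∧ 1 < FinitePlace.mk v j) :=
      fun h' => h (Pool.Agent.H16.LA.mem_am.2 ⟨h'.2, h'.1⟩)
    rw [if_neg h, if_neg hp]

open Classical in
theorem addCount_eq (m : ℕ) {j : K} (h0 : j ≠ 0) (h1 : j ≠ 1728) :
    addCount m j = ∑ v ∈ Pool.Agent.H16.LA.um m j, Real.log (Nv v) := by
  rw [← fsum_ite (Pool.Agent.H16.LA.um m j) (fun v => Real.log (Nv v))]
  unfold addCount
  refine finsum_congr fun v => ?_
  by_cases h : v ∈ Pool.Agent.H16.LA.um m j
  · have hp := (Pool.Agent.H16.LA.mem_um h0 h1).1 h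
    have hp' : Additive m j v := ⟨hp.1.1, hp.1.2.1, hp.2.1, hp.1.2.2, hp.2.2⟩
    rw [if_pos h, if_pos hp']
    rfl
  · have hp : ¬ Additive m j v := fun h' =>
      h ((Pool.Agent.H16.LA.mem_um h0 h1).2 ⟨⟨h'.1, h'.2.1, h'.2.2.2.1⟩, h'.2.2.1, h'.2.2.2.2⟩)
    rw [if_neg h, if_neg hp]

open Classical in
theorem ls_iff (c B : ℝ) (j : K) : LangSilverman c B j ↔ Pool.Agent.Q237.LS.LT c B j := by
  have hn := Pool.Agent.Q237.LS.n_pos (K := K)
  unfold LangSilverman Pool.Agent.Q237.LS.LT absH
  have key : ∀ x y z : ℝ, c * (1 + x / Module.finrank ℚ K + y / Module.finrank ℚ K) ≤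
      z / Module.finrank ℚ K ↔ c * (Module.finrank ℚ K + x + y) ≤ z := by
    intro x y z
    have e : c * (1 + x / Module.finrank ℚ K + y / Module.finrank ℚ K) =
        c * (Module.finrank ℚ K + x + y) / Module.finrank ℚ K := by
      field_simp
    rw [e, div_le_div_iff_of_pos_right hn]
  constructor
  · intro h a b hD hj
    obtain ⟨h1, h2⟩ := h a b hD hj
    refine ⟨h1, fun S hS g M hM P hP => ?_⟩
    have h3 := h2 S hS g M hM P hP
    rw [key, ht_log] at h3
    exact h3
  · intro h a b hD hj
    obtain ⟨h1, h2⟩ := h a b hD hj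
    refine ⟨h1, fun S hS g M hM P hP => ?_⟩
    rw [key, ht_log]
    exact h2 S hS g M hM P hP

open Classical in
theorem inExt_of {m : ℕ} {κ c B : ℝ} {j : K} (h : Pool.Agent.H16.LA.UM m κ c B j) :
    InExtensions m κ c B j := by
  intro S hS L _ _ _ hL
  rw [ls_iff]
  rw [ht_log] at hS
  exact h S hS L hL

end Aux

/-- a single invariant -/
theorem part_one : ∃ C : ℝ, 0 < C ∧ ∀ (m : ℕ) (θ κ : ℝ), 0 < m → 0 < θ → θ ≤ 1 →
    ∀ (K : Type) [Field K] [NumberField K] (j : K), j ≠ 0 → j ≠ 1728 →
      (θ + κ) * Height.logHeight₁ j ≤ poleCount m j + addCount m j →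
      C * m ^ 2 / θ ^ 2 ≤ absH j →
      InExtensions m κ ((θ / m) ^ 6 / 290000) (28 * m ^ 2 / θ ^ 2) j := by
  classical
  refine ⟨144 * c8, by have := c8_pos; positivity, ?_⟩
  intro m θ κ hm hθ hθ1 K _ _ j h0 h1 hf hh
  rw [poleCount_eq, addCount_eq m h0 h1, ht_log] at hf
  unfold absH at hh
  rw [ht_log] at hh
  have hn := Pool.Agent.Q237.LS.n_pos (K := K)
  rw [le_div_iff₀ hn] at hh
  apply inExt_of
  exact Pool.Agent.H16.LA.UM_of h0 h1 hm hθ hθ1 hf (by linarith)

/-- the exceptional invariants -/
theorem part_two (m : ℕ) (θ κ ε : ℝ) (hm : 0 < m) (hθ : 0 < θ) (hθ1 : θ ≤ 1) (hκ0 : 0 ≤ κ)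
    (hε : 0 < ε) : ∃ C : ℝ, 0 < C ∧
    ∀ (K : Type) [Field K] [NumberField K] (B : ℝ), 1 ≤ B →
      (Inv K B).Finite ∧
      ((Exc K m θ κ B).ncard : ℝ) ≤
        (C * B ^ (expo m + θ + κ + ε)) ^ Module.finrank ℚ K := by
  set R : Prp := fun K _ _ j =>
    InExtensions m κ ((θ / m) ^ 6 / 290000) (28 * m ^ 2 / θ ^ 2) j with hR
  obtain ⟨A1, hA1, h1⟩ := Pool.Agent.H16.LA.log_countM hm hθ hθ1 hκ0 (half_pos hε) R
    (fun K _ _ j h => inExt_of h)
  obtain ⟨C, hC, h2⟩ := countsU R hε h1
  refine ⟨C, hC, fun K _ _ B hB => ?_⟩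
  have h3 := h2 K B hB
  have e : Pool.Agent.H16.LA.expo m + (θ + κ) + ε = expo m + θ + κ + ε := by
    have : Pool.Agent.H16.LA.expo m = expo m := rfl
    rw [this]
    ring
  rw [e] at h3
  exact h3

/-- **Main theorem.** The constants do not depend on the number field.
(1) The bounds for a single invariant `j ∈ K` in all finite extensions `L` of `K` whose ramification
indices at the primes not dividing `m` and not above `S` divide `m`, for all `S` with
`∑ log N v ≤ κ h(j)`.
(2) The exceptional invariants: those of height at most `B` for which the lower bound with the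
constant `(θ / m)⁶ / 290000` or the bound `28 m² / θ²` for the orders of the torsion points fails for
some `S`, for some elliptic curve over some such extension `L`.
(3) The number of all invariants.
(4) Extensions contained in Galois extensions of exponent dividing `m`, and extensions generated by
elements of degree at most `d` (with `m = d!`), are among those considered, for every `S`; for
`m = 1` these are all extensions unramified outside `S`.
(5) Every `j ≠ 0, 1728` is the invariant of a curve over `K`.
(6) `chat` is the limit of `sht (2 ^ k P) / 4 ^ k`. -/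
theorem result :
    (∃ C : ℝ, 0 < C ∧ ∀ (m : ℕ) (θ κ : ℝ), 0 < m → 0 < θ → θ ≤ 1 →
      ∀ (K : Type) [Field K] [NumberField K] (j : K), j ≠ 0 → j ≠ 1728 →
        (θ + κ) * Height.logHeight₁ j ≤ poleCount m j + addCount m j →
        C * m ^ 2 / θ ^ 2 ≤ absH j →
        InExtensions m κ ((θ / m) ^ 6 / 290000) (28 * m ^ 2 / θ ^ 2) j) ∧
    (∀ (m : ℕ) (θ κ ε : ℝ), 0 < m → 0 < θ → θ ≤ 1 → 0 ≤ κ → 0 < ε → ∃ C : ℝ, 0 < C ∧
      ∀ (K : Type) [Field K] [NumberField K] (B : ℝ), 1 ≤ B →
        (Inv K B).Finite ∧
        ((Exc K m θ κ B).ncard : ℝ) ≤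
          (C * B ^ (expo m + θ + κ + ε)) ^ Module.finrank ℚ K) ∧
    (∀ ε : ℝ, 0 < ε → ∃ C : ℝ, 0 < C ∧
      ∀ (K : Type) [Field K] [NumberField K] (B : ℝ), 16 * √(rootDisc K) ≤ B →
        (C⁻¹ * B ^ (2 - ε) * rootDisc K ^ (-(2 + ε))) ^ Module.finrank ℚ K ≤
          ((Inv K B).ncard : ℝ)) ∧
    (∀ (K : Type) [Field K] [NumberField K] (S : Finset (HeightOneSpectrum (𝓞 K)))
      (L : Type) [Field L] [NumberField L] [Algebra K L],
      (∀ m : ℕ, BoundedExponent K m L → BoundedRam m S L) ∧
      (∀ d : ℕ, GeneratedByDegree K d L → BoundedRam d.factorial S L) ∧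
      (BoundedRam 1 S L ↔ ∀ w : HeightOneSpectrum (𝓞 L), w.under (𝓞 K) ∉ S →
        w.asIdeal.ramificationIdx (𝓞 K) = 1)) ∧
    (∀ (K : Type) [Field K] [NumberField K] (j : K), j ≠ 0 → j ≠ 1728 →
      ∃ a b : K, 4 * a ^ 3 + 27 * b ^ 2 ≠ 0 ∧ jInv a b = j) ∧
    (∀ (K : Type) [Field K] [NumberField K] [DecidableEq K] (a b : K),
      4 * a ^ 3 + 27 * b ^ 2 ≠ 0 →
      ∀ P : SPt a b, Filter.Tendsto (fun k : ℕ => sht ((2 ^ k : ℕ) • P) / 4 ^ k) Filter.atTop
        (nhds (chat P))) := by
  refine ⟨part_one, part_two, fun ε hε => inv_lower hε, ?_, ?_, ?_⟩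
  · intro K _ _ S L _ _ _
    refine ⟨?_, ?_, ?_⟩
    · intro m h
      exact Pool.Agent.H16.LA.tm_of_exponent h S
    · intro d h
      exact Pool.Agent.H16.LA.tm_of_exponent (Pool.Agent.H16.LA.exponent_of_generated h) S
    · constructor
      · intro h w hw
        have h1 := h w (by simp) hw
        simpa using h1
      · intro h w _ hw
        rw [h w hw]
  · intro K _ _ j h0 h1
    exact every_inv j h0 h1
  · intro K _ _ _ a b hD P
    exact (chat_spec hD).1 P

end Pool.Agent.Results.MP_9a3c31_nt.BoundedRamification
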