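import Mathlib
import Pool.Agent.H16.LP.All

/-!
# The bound of Lang and Silverman for almost all algebraic numbers of degree `d`

All constants in the bounds are absolute: they do not depend on the degree `d`.

Let `F = a_d x ^ d + ... + a_0` be a primitive polynomial with integral coefficients and `j` a root
of `F` which generates a number field `K = ℚ(j)` of degree `d`.  We show that for all but at most
`C H ^ (d + θ + κ + ε)` of these polynomials with coefficients of absolute value at most `H` the
following holds for all roots `j ≠ 0, 1728`.  For all finite sets `S` of primes of `K` with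
`∑ log N v ≤ κ d h(j)`, for ALL finite extensions `L` of `K` with `BoundedRam m S L`, and ALL
elliptic curves `E` over `L` of invariant `j`, the torsion points of `E(L)` have order at most
`28 m² / θ²`, and all points of infinite order over `L` of all powers `E ^ g`, for the
polarizations given by positive definite integral matrices, have absolute canonical height at least
`(θ / m)⁶ / 290000` times `1 + h(j) + (1 / [L : ℚ]) ∑ log N w`, the last sum over the primes of `L`
of bad reduction.

There are about `(2 H) ^ (d + 1) / ζ(d + 1)` primitive polynomials, almost all of them irreducible;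
so for `θ + κ < 1` this is true for almost all algebraic numbers of degree `d`.  For `m = 1`, `κ = 0`
and `L = K` we get for almost all algebraic numbers `j` of degree `d`, ordered by the maximum of the
coefficients of their minimal polynomials, that all elliptic curves over `ℚ(j)` of invariant `j` have
only torsion points of order at most `28 / θ²` over `ℚ(j)`, and satisfy the conjecture of Lang
and Silverman with the absolute constant `θ⁶ / 290000`, for each `θ < 1`.

`SPt a b` is the group of the rational points over `L` of the elliptic curve
`E : y² = x³ + a x + b`, `sht P` the height of the `x`-coordinate of `P` (relative to `L`), `chat P`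
the canonical height, the limit of `sht (2 ^ k P) / 4 ^ k`, and `chatM M P` the canonical height of
the point `P` of `E ^ g` for the polarization given by the symmetric positive definite matrix `M`.
The absolute heights are the quotients by the degree of `L`.

`BoundedRam m S L` says that all ramification indices of `L / K` at the primes which neither divide
`m` nor lie above the finite set `S` of primes of `K` divide `m`.  There is no condition on the
degree, on the ramification above `S` and above `m`, or on the discriminant of `L`.

Proof.  Each prime which divides `a_d` lies below a pole of `j`.  So the poles of `j` which do not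
divide `m` contribute at least the logarithm of the product of the primes which divide `a_d` but
not `m`.  This is at least `(θ + κ) log ((d + 1) H)` but for few values of `a_d` (`LP/RAD`), and
`d h(j) ≤ log ((d + 1) H)` (`LP/ARC`, `LP/FIN`; Mahler's measure and the algebraic integers
`a_d ∏ α_i`).  Then the theorem on one invariant from our `BoundedRamification` (`H16/LA`) applies.
-/

set_option autoImplicit false
set_option linter.unusedSectionVars false

namespace Pool.Agent.Results.MP_9a3c31_nt.InvariantsOfDegree

open NumberField IsDedekindDomain Pool.Agent.TH942 Pool.Agent.TH910.LS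

section Defs

variable {K : Type} [Field K] [NumberField K]

/-- the `j`-invariant of `y² = x³ + a x + b` -/
noncomputable def jInv (a b : K) : K := 6912 * a ^ 3 / (4 * a ^ 3 + 27 * b ^ 2)

/-- The `v`-adic absolute value of the discriminant is not a twelfth power of an absolute value, or
`j` has a pole at `v`. All primes `v` of bad reduction of `y² = x³ + a x + b` which do not divide
`6` have this property. -/
def Bad (a b : K) (v : HeightOneSpectrum (𝓞 K)) : Prop :=
  (∀ u : K, FinitePlace.mk v (4 * a ^ 3 + 27 * b ^ 2) ≠ FinitePlace.mk v u ^ 12) ∨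
    1 < FinitePlace.mk v (jInv a b)

/-- the absolute logarithmic height -/
noncomputable def absH (j : K) : ℝ := Height.logHeight₁ j / Module.finrank ℚ K

open Classical in
/-- For all elliptic curves over `K` of invariant `j`: the orders of the torsion points over `K` are
at most `B`, and the lower bound of Lang and Silverman with constant `c` holds for all points of
infinite order over `K` of all powers, for the polarizations given by positive definite matrices. -/
def LangSilverman (c B : ℝ) (j : K) : Prop :=
  ∀ a b : K, 4 * a ^ 3 + 27 * b ^ 2 ≠ 0 → jInv a b = j →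
    (∀ Q : SPt a b, IsOfFinAddOrder Q → (addOrderOf Q : ℝ) ≤ B) ∧
    ∀ S : Finset (HeightOneSpectrum (𝓞 K)), (∀ v ∈ S, Bad a b v) →
      ∀ (g : ℕ) (M : Matrix (Fin g) (Fin g) ℤ), (M.map (Int.cast : ℤ → ℝ)).PosDef →
      ∀ P : Fin g → SPt a b, ¬ IsOfFinAddOrder P →
        c * (1 + absH j + (∑ v ∈ S, Real.log (Ideal.absNorm v.asIdeal)) / Module.finrank ℚ K) ≤
          chatM M P / Module.finrank ℚ K

/-- All ramification indices of `L / K` at the primes which neither divide `m` nor lie above `S`
divide `m`. -/
def BoundedRam (m : ℕ) (S : Finset (HeightOneSpectrum (𝓞 K)))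
    (L : Type) [Field L] [NumberField L] [Algebra K L] : Prop :=
  ∀ w : HeightOneSpectrum (𝓞 L), FinitePlace.mk w (m : L) = 1 → w.under (𝓞 K) ∉ S →
    w.asIdeal.ramificationIdx (𝓞 K) ∣ m

/-- The bounds hold, with the constants `c` and `B`, over all finite extensions `L` of `K` with
`BoundedRam m S L`, for all finite sets `S` of primes of `K` with `∑ log N v ≤ κ n h(j)`, where `n` is
the degree of `K`. -/
def InExtensions (m : ℕ) (κ c B : ℝ) (j : K) : Prop :=
  ∀ S : Finset (HeightOneSpectrum (𝓞 K)),
    ∑ v ∈ S, Real.log (Ideal.absNorm v.asIdeal) ≤ κ * Height.logHeight₁ j →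
    ∀ (L : Type) [Field L] [NumberField L] [Algebra K L],
      BoundedRam m S L → LangSilverman c B (algebraMap K L j)

end Defs

/-- `j` generates the number field `K`, which has degree `d`, and is a root of the polynomial
`a_d x ^ d + ... + a_0`. -/
def GeneratingRoot {d : ℕ} (a : Fin (d + 1) → ℤ) (K : Type) [Field K] [NumberField K] (j : K) :
    Prop :=
  Module.finrank ℚ K = d ∧ IntermediateField.adjoin ℚ {j} = ⊤ ∧
    ∑ i, (a i : K) * j ^ (i : ℕ) = 0

/-- The conclusion for all generating roots `j ≠ 0, 1728` of the polynomial, with the constants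
`(θ / m)⁶ / 290000` and `28 m² / θ²`. -/
def Good (m : ℕ) (θ κ : ℝ) {d : ℕ} (a : Fin (d + 1) → ℤ) : Prop :=
  ∀ (K : Type) [Field K] [NumberField K] (j : K), GeneratingRoot a K j → j ≠ 0 → j ≠ 1728 →
    InExtensions m κ ((θ / m) ^ 6 / 290000) (28 * m ^ 2 / θ ^ 2) j

/-- The primitive polynomials with coefficients of absolute value at most `H` for which the
conclusion fails. -/
def Exceptional (d m : ℕ) (θ κ : ℝ) (H : ℕ) : Set (Fin (d + 1) → ℤ) :=
  {a | (∀ i, |a i| ≤ H) ∧ (∀ p : ℕ, p.Prime → ∃ i, ¬ (p : ℤ) ∣ a i) ∧ ¬ Good m θ κ a}

open Pool.Agent.Y733.UD Pool.Agent.Y733.LS Pool.Agent.W223.AK Pool.Agent.H691R3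
open Pool.Agent.Q237.LS Pool.Agent.Q237.LT

section Aux

variable {K : Type} [Field K] [NumberField K]

open Classical in
theorem ls_iff (c B : ℝ) (j : K) : LangSilverman c B j ↔ Pool.Agent.Q237.LS.LT c B j := by
  have hn := Pool.Agent.Q237.LS.n_pos (K := K)
  unfold LangSilverman Pool.Agent.Q237.LS.LT absH
  have key : ∀ x y z : ℝ, c * (1 + x / Module.finrank ℚ K + y / Module.finrank ℚ K) ≤
      z / Module.finrank ℚ K ↔ c * (Module.finrank ℚ K + x + y) ≤ z := by
    intro x y z
    have e : c * (1 + x / Module.finrank ℚ K + y / Module.finrank ℚ K) =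
        c * (Module.finrank ℚ K + x + y) / Module.finrank ℚ K := by
      field_simp
    rw [e, div_le_div_iff_of_pos_right hn]
  constructor
  · intro h a b hD hj
    obtain ⟨h1, h2⟩ := h a b hD hj
    refine ⟨h1, fun S hS g M hM P hP => ?_⟩
    have h3 := h2 S hS g M hM P hP
    rw [key, ht_log] at h3
    exact h3
  · intro h a b hD hj
    obtain ⟨h1, h2⟩ := h a b hD hj
    refine ⟨h1, fun S hS g M hM P hP => ?_⟩
    rw [key, ht_log]
    exact h2 S hS g M hM P hP

open Classical in
theorem inExt_of {m : ℕ} {κ c B : ℝ} {j : K} (h : Pool.Agent.H16.LA.UM m κ c B j) :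
    InExtensions m κ c B j := by
  intro S hS L _ _ _ hL
  rw [ls_iff]
  rw [ht_log] at hS
  exact h S hS L hL

end Aux

/-- For all but at most `C H ^ (d + θ + κ + ε)` of the primitive polynomials of degree `d` with
integral coefficients of absolute value at most `H` the bound of Lang and Silverman and the bound for
the torsion hold for all roots `j ≠ 0, 1728` of degree `d`, over all finite extensions `L` of
`K = ℚ(j)` with `BoundedRam m S L`, where `S` is a finite set of primes of `K` with
`∑ log N v ≤ κ d h(j)`; the constants `(θ / m)⁶ / 290000` and `28 m² / θ²` do not depend on `d`. -/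
theorem result (d m : ℕ) (θ κ ε : ℝ) (hm : 0 < m) (hθ : 0 < θ) (hθ1 : θ ≤ 1) (hκ : 0 ≤ κ)
    (hε : 0 < ε) :
    ∃ C : ℝ, 0 < C ∧ ∀ H : ℕ, 1 ≤ H → (Exceptional d m θ κ H).Finite ∧
      ((Exceptional d m θ κ H).ncard : ℝ) ≤ C * (H : ℝ) ^ (d + θ + κ + ε) := by
  refine Pool.Agent.H16.LP.few_exc d m θ κ ε hm hθ hθ1 hκ hε (fun H => Exceptional d m θ κ H) ?_
  rintro H a ⟨h1, h2, h3⟩
  refine ⟨h1, h2, ?_⟩
  unfold Good at h3
  push Not at h3
  obtain ⟨K, i1, i2, j, ⟨h4, h5, h6⟩, h7, h8, h9⟩ := h3
  exact ⟨K, i1, i2, j, ⟨h4, h5, h6⟩, h7, h8, fun h => h9 (inExt_of h)⟩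

end Pool.Agent.Results.MP_9a3c31_nt.InvariantsOfDegree
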